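import Mathlib

/-!
# Jets and differential functions

The basic notions used to speak about evolution systems `u^i_t = K^i(u, u_x, u_xx, …)` and their
local conservation laws: infinite jets, differential functions, total derivative, evolutionary
derivative.
-/

set_option autoImplicit false

namespace Pool.Agent.Lib.H99JetCalc

/-! ## Jets and differential functions -/

/-- Infinite jets `(u, u_x, u_xx, …)` of a `𝕜^N`-valued function of `x`: the number `j n i` is the
value of the jet variable `u^i_n = ∂_x^n u^i`.  The space carries the product topology, so an open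
set is a union of sets which restrict only finitely many jet variables, each to an open set. -/
abbrev Jet (𝕜 : Type) (N : ℕ) : Type := ℕ → Fin N → 𝕜

/-- The jet variables `(u, u_1, …, u_k)` of order at most `k` of an infinite jet. -/
def trunc {𝕜 : Type} {N : ℕ} (k : ℕ) (j : Jet 𝕜 N) : Fin (k + 1) → Fin N → 𝕜 := fun n => j n

variable {𝕜 : Type} [RCLike 𝕜] {N : ℕ}

/-- `F` is, on the set `Ω` of jets, a (locally analytic) differential function of order `≤ k`:
it is given by a function `f(u, u_1, …, u_k)` which is analytic at each point of `Ω`. -/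
def IsDifferentialFunction (k : ℕ) (Ω : Set (Jet 𝕜 N)) (F : Jet 𝕜 N → 𝕜) : Prop :=
  ∃ f : (Fin (k + 1) → Fin N → 𝕜) → 𝕜,
    ∀ j ∈ Ω, AnalyticAt 𝕜 f (trunc k j) ∧ F j = f (trunc k j)

/-- The total `x`-derivative `D_x F = ∑ u^i_{n+1} ∂F/∂u^i_n`, i.e. the derivative of `F` at the jet
`j` in the direction of the shifted jet `(u_1, u_2, u_3, …)`. -/
noncomputable def totalDeriv (F : Jet 𝕜 N → 𝕜) (j : Jet 𝕜 N) : 𝕜 :=
  lineDeriv 𝕜 F j (fun n => j (n + 1))

/-- The derivative `D_t F = ∑ D_x^n(K^i) ∂F/∂u^i_n` of `F` along the evolution system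
`u^i_t = K^i(u, u_1, …)`. -/
noncomputable def evolDeriv (K : Jet 𝕜 N → Fin N → 𝕜) (F : Jet 𝕜 N → 𝕜) (j : Jet 𝕜 N) : 𝕜 :=
  lineDeriv 𝕜 F j (fun n i => totalDeriv^[n] (fun j' => K j' i) j)

/-- The derivative `∂F/∂u^i_n`. -/
noncomputable def jetDeriv (n : ℕ) (i : Fin N) (F : Jet 𝕜 N → 𝕜) (j : Jet 𝕜 N) : 𝕜 :=
  lineDeriv 𝕜 F j (Pi.single n (Pi.single i 1))

/-- The matrix `∂²ρ/∂u^a_k ∂u^b_k`. -/
noncomputable def topHessian (k : ℕ) (ρ : Jet 𝕜 N → 𝕜) (j : Jet 𝕜 N) : Matrix (Fin N) (Fin N) 𝕜 :=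
  Matrix.of fun a b => jetDeriv k a (jetDeriv k b ρ) j

end Pool.Agent.Lib.H99JetCalc
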