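import Mathlib
import Pool.Agent.Lib.H99JetCalc.Defs

/-!
# Calculus of differential functions

`JetCalc` is an abstract algebra of differential functions; `JetCalc.main` is the key computation:
for a conserved density of order `k ≥ 1` of a system `u_t = u_3 + f(u_1)` the matrix
`H = ∂²ρ/∂u_k∂u_k` satisfies the symmetry relation
`∑ i, f^i_{acd} H_{ib} = ∑ i, f^i_{bcd} H_{ia}`.
`jetCalc` realises the abstract algebra by the differential functions on an open set of jets.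
-/

set_option autoImplicit false

namespace Pool.Agent.Lib.H99JetCalc

/-! ## The abstract calculus of differential functions -/

/-- Abstract algebra of differential functions: total derivative `D`, derivatives `pd n i` with
respect to the jet variables `X n i`, and their commutation rules. -/
structure JetCalc (𝕜 A : Type*) [Field 𝕜] [CommRing A] [Algebra 𝕜 A] (N : ℕ) where
  D : Derivation 𝕜 A A
  pd : ℕ → Fin N → Derivation 𝕜 A A
  X : ℕ → Fin N → A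
  pd_X : ∀ n i m l, pd n i (X m l) = if n = m ∧ i = l then 1 else 0
  pd_comm : ∀ n i m l F, pd n i (pd m l F) = pd m l (pd n i F)
  pd_D_zero : ∀ i F, pd 0 i (D F) = D (pd 0 i F)
  pd_D_succ : ∀ n i F, pd (n+1) i (D F) = D (pd (n+1) i F) + pd n i F
  fin : ∀ F, ∃ k, ∀ n, k < n → ∀ i, pd n i F = 0

namespace JetCalc

variable {𝕜 A : Type*} [Field 𝕜] [CommRing A] [Algebra 𝕜 A] {N : ℕ} (J : JetCalc 𝕜 A N)

/-- If `D F = 0` then all partial derivatives vanish. -/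
lemma pd_eq_zero_of_D_eq_zero {F : A} (h : J.D F = 0) : ∀ n i, J.pd n i F = 0 := by
  obtain ⟨k, hk⟩ := J.fin F
  -- downward induction
  have key : ∀ m, ∀ n, k + 1 ≤ n + m → ∀ i, J.pd n i F = 0 := by
    intro m
    induction m with
    | zero => intro n hn i; exact hk n (by omega) i
    | succ m ih =>
      intro n hn i
      have h1 := J.pd_D_succ n i F
      rw [h, map_zero, ih (n+1) (by omega) i, map_zero, zero_add] at h1
      exact h1.symm
  intro n i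
  exact key (k+1) n (by omega) i

/-- If all `pd p (D σ)` vanish for `p > q` (`q ≥ 1`), all `pd p σ` vanish for `p ≥ q`. -/
lemma pd_eq_zero_of_pd_D {σ : A} {q : ℕ} (h : ∀ p, q < p → ∀ a, J.pd p a (J.D σ) = 0) :
    ∀ p, q ≤ p → ∀ a, J.pd p a σ = 0 := by
  obtain ⟨k, hk⟩ := J.fin σ
  have key : ∀ m, ∀ n, q ≤ n → k + 1 ≤ n + m → ∀ i, J.pd n i σ = 0 := by
    intro m
    induction m with
    | zero => intro n _ hn i; exact hk n (by omega) i
    | succ m ih =>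
      intro n hq hn i
      have h1 := J.pd_D_succ n i σ
      rw [h (n+1) (by omega) i, ih (n+1) (by omega) (by omega) i, map_zero, zero_add] at h1
      exact h1.symm
  intro n hq i
  exact key (k+1) n hq (by omega) i

/-- lowered partial derivative -/
def low : ℕ → Fin N → A → A
  | 0, _, _ => 0
  | (n+1), a, F => J.pd n a F

lemma pd_D (n : ℕ) (i : Fin N) (F : A) : J.pd n i (J.D F) = J.D (J.pd n i F) + J.low n i F := by
  cases n with
  | zero => simp [low, J.pd_D_zero]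
  | succ n => simp [low, J.pd_D_succ]

lemma pd_low (n : ℕ) (i : Fin N) (m : ℕ) (l : Fin N) (F : A) :
    J.pd n i (J.low m l F) = J.low m l (J.pd n i F) := by
  cases m with
  | zero => simp [low]
  | succ m => simp [low, J.pd_comm n i m l]

lemma iter_f {f : A} (hf : ∀ n, n ≠ 1 → ∀ i, J.pd n i f = 0) (n : ℕ) :
    (∀ p, n + 1 < p → ∀ a, J.pd p a ((J.D)^[n] f) = 0) ∧
      ∀ a, J.pd (n+1) a ((J.D)^[n] f) = J.pd 1 a f := by
  induction n with
  | zero =>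
    refine ⟨fun p hp a => ?_, fun a => rfl⟩
    simpa using hf p (by omega) a
  | succ n ih =>
    obtain ⟨h1, h2⟩ := ih
    constructor
    · intro p hp a
      obtain ⟨p, rfl⟩ : ∃ p', p = p' + 1 := ⟨p - 1, by omega⟩
      rw [Function.iterate_succ_apply', J.pd_D_succ, h1 (p+1) (by omega), h1 p (by omega)]
      simp
    · intro a
      rw [Function.iterate_succ_apply', J.pd_D_succ, h1 (n+1+1) (by omega), h2]
      simp

/-- the evolutionary derivative of `ρ` (of order `≤ k`) along `u_t = u_3 + f(u_1)`. -/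
def Dt (f : Fin N → A) (k : ℕ) (ρ : A) : A :=
  ∑ n ∈ Finset.range (k+1), ∑ i, J.pd n i ρ * (J.X (n+3) i + (J.D)^[n] (f i))

lemma pd_Dt {f : Fin N → A} {k : ℕ} {ρ : A}
    (hρ : ∀ n, k < n → ∀ i, J.pd n i ρ = 0) (p : ℕ) (hp : k < p) (a : Fin N) :
    J.pd p a (J.Dt f k ρ) = ∑ n ∈ Finset.range (k+1), ∑ i, J.pd n i ρ *
      ((if p = n + 3 ∧ a = i then 1 else 0) + J.pd p a ((J.D)^[n] (f i))) := by
  unfold Dt
  rw [map_sum]
  refine Finset.sum_congr rfl fun n hn => ?_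
  rw [map_sum]
  refine Finset.sum_congr rfl fun i _ => ?_
  rw [Derivation.leibniz, J.pd_comm p a n i, hρ p hp a, map_zero, map_add, J.pd_X]
  simp

lemma pd_Dt_big {f : Fin N → A} (hf : ∀ i, ∀ n, n ≠ 1 → ∀ a, J.pd n a (f i) = 0) {k : ℕ} {ρ : A}
    (hρ : ∀ n, k < n → ∀ i, J.pd n i ρ = 0) (p : ℕ) (hp : k + 3 < p) (a : Fin N) :
    J.pd p a (J.Dt f k ρ) = 0 := by
  rw [J.pd_Dt hρ p (by omega)]
  refine Finset.sum_eq_zero fun n hn => Finset.sum_eq_zero fun i _ => ?_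
  have hn' : n < k + 1 := Finset.mem_range.mp hn
  rw [(J.iter_f (hf i) n).1 p (by omega), if_neg (by omega)]
  simp

lemma pd_Dt_top {f : Fin N → A} (hf : ∀ i, ∀ n, n ≠ 1 → ∀ a, J.pd n a (f i) = 0) {k : ℕ} {ρ : A}
    (hρ : ∀ n, k < n → ∀ i, J.pd n i ρ = 0) (a : Fin N) :
    J.pd (k+3) a (J.Dt f k ρ) = J.pd k a ρ := by
  rw [J.pd_Dt hρ (k+3) (by omega), Finset.sum_eq_single_of_mem k (by simp)]
  · rw [Finset.sum_eq_single_of_mem a (by simp)]
    · rw [(J.iter_f (hf a) k).1 (k+3) (by omega)]; simp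
    · intro i _ hi
      rw [(J.iter_f (hf i) k).1 (k+3) (by omega), if_neg (fun h => hi h.2.symm)]; simp
  · intro n hn hnk
    refine Finset.sum_eq_zero fun i _ => ?_
    have hn' : n < k + 1 := Finset.mem_range.mp hn
    rw [(J.iter_f (hf i) n).1 (k+3) (by omega), if_neg (by omega)]; simp

lemma pd_Dt_two {f : Fin N → A} (hf : ∀ i, ∀ n, n ≠ 1 → ∀ a, J.pd n a (f i) = 0) {K : ℕ} {ρ : A}
    (hρ : ∀ n, K + 1 < n → ∀ i, J.pd n i ρ = 0) (a : Fin N) :
    J.pd (K+3) a (J.Dt f (K+1) ρ) = J.pd K a ρ := by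
  rw [J.pd_Dt hρ (K+3) (by omega), Finset.sum_eq_single_of_mem K (by simp)]
  · rw [Finset.sum_eq_single_of_mem a (by simp)]
    · rw [(J.iter_f (hf a) K).1 (K+3) (by omega)]; simp
    · intro i _ hi
      rw [(J.iter_f (hf i) K).1 (K+3) (by omega), if_neg (fun h => hi h.2.symm)]; simp
  · intro n hn hnk
    refine Finset.sum_eq_zero fun i _ => ?_
    have hn' : n < K + 1 + 1 := Finset.mem_range.mp hn
    rw [(J.iter_f (hf i) n).1 (K+3) (by omega), if_neg (by omega)]; simp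

lemma pd_Dt_one {f : Fin N → A} (hf : ∀ i, ∀ n, n ≠ 1 → ∀ a, J.pd n a (f i) = 0) {K : ℕ} {ρ : A}
    (hρ : ∀ n, K + 1 < n → ∀ i, J.pd n i ρ = 0) (a : Fin N) :
    J.pd (K+2) a (J.Dt f (K+1) ρ) =
      J.low K a ρ + ∑ i, J.pd (K+1) i ρ * J.pd 1 a (f i) := by
  rw [J.pd_Dt hρ (K+2) (by omega)]
  simp_rw [mul_add, Finset.sum_add_distrib]
  congr 1
  · cases K with
    | zero =>
      simp only [low]
      refine Finset.sum_eq_zero fun n hn => Finset.sum_eq_zero fun i _ => ?_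
      rw [if_neg (by omega)]; simp
    | succ K =>
      simp only [low]
      rw [Finset.sum_eq_single_of_mem K (by simp; omega)]
      · rw [Finset.sum_eq_single_of_mem a (by simp)]
        · simp
        · intro i _ hi
          rw [if_neg (fun h => hi h.2.symm)]; simp
      · intro n hn hnk
        refine Finset.sum_eq_zero fun i _ => ?_
        rw [if_neg (by omega)]; simp
  · rw [Finset.sum_eq_single_of_mem (K+1) (by simp)]
    · refine Finset.sum_congr rfl fun i _ => ?_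
      rw [(J.iter_f (hf i) (K+1)).2]
    · intro n hn hnk
      refine Finset.sum_eq_zero fun i _ => ?_
      have hn' : n < K + 1 + 1 := Finset.mem_range.mp hn
      rw [(J.iter_f (hf i) n).1 (K+2) (by omega)]; simp

/-- main abstract theorem -/
theorem main {f : Fin N → A} (hf : ∀ i, ∀ n, n ≠ 1 → ∀ a, J.pd n a (f i) = 0) {K : ℕ} {ρ σ : A}
    [CharZero 𝕜]
    (hρ : ∀ n, K + 1 < n → ∀ i, J.pd n i ρ = 0) (h : J.Dt f (K+1) ρ = J.D σ)
    (a b c d : Fin N) :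
    ∑ i, J.pd 1 d (J.pd 1 c (J.pd 1 a (f i))) * J.pd (K+1) i (J.pd (K+1) b ρ) =
    ∑ i, J.pd 1 d (J.pd 1 c (J.pd 1 b (f i))) * J.pd (K+1) i (J.pd (K+1) a ρ) := by
  -- order of σ
  have hσ : ∀ p, K + 4 ≤ p → ∀ a, J.pd p a σ = 0 := by
    refine J.pd_eq_zero_of_pd_D ?_
    intro p hp a
    rw [← h]
    exact J.pd_Dt_big hf hρ p (by omega) a
  -- σ_{k+2} = ρ_k
  have hσ3 : ∀ a, J.pd (K+3) a σ = J.pd (K+1) a ρ := by
    intro a
    have h1 := J.pd_D_succ (K+3) a σ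
    rw [← h, J.pd_Dt_top hf hρ, hσ (K+3+1) (by omega), map_zero, zero_add] at h1
    exact h1.symm
  have hσ2 : ∀ a, J.pd K a ρ = J.D (J.pd (K+1) a ρ) + J.pd (K+2) a σ := by
    intro a
    have h1 := J.pd_D_succ (K+2) a σ
    rw [← h, J.pd_Dt_two hf hρ, hσ3] at h1
    exact h1
  have hσ1 : ∀ a, J.low K a ρ + ∑ i, J.pd (K+1) i ρ * J.pd 1 a (f i) =
      J.D (J.pd (K+2) a σ) + J.pd (K+1) a σ := by
    intro a
    have h1 := J.pd_D_succ (K+1) a σ
    rw [← h, J.pd_Dt_one hf hρ] at h1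
    exact h1
  have hρ0 : ∀ n, K + 1 < n → ∀ i m l, J.pd n i (J.pd m l ρ) = 0 := by
    intro n hn i m l
    rw [J.pd_comm, hρ n hn, map_zero]
  -- second derivatives: σ_{K+2,K+2} = -H
  have h22 : ∀ a b, J.pd (K+2) b (J.pd (K+2) a σ) = - J.pd (K+1) b (J.pd (K+1) a ρ) := by
    intro a b
    have h1 := congrArg (J.pd (K+2) b) (hσ2 a)
    rw [hρ0 (K+2) (by omega), map_add, J.pd_D_succ, hρ0 (K+2) (by omega), map_zero, zero_add] at h1
    linear_combination -h1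
  have h21 : ∀ a b, J.pd (K+1) b (J.pd (K+2) a σ) = J.pd (K+1) b (J.pd K a ρ)
      - J.D (J.pd (K+1) b (J.pd (K+1) a ρ)) - J.pd K b (J.pd (K+1) a ρ) := by
    intro a b
    have h1 := congrArg (J.pd (K+1) b) (hσ2 a)
    rw [map_add, J.pd_D_succ] at h1
    linear_combination -h1
  -- DH = 0
  have hf0 : ∀ p, p ≠ 1 → ∀ b a i, J.pd p b (J.pd 1 a (f i)) = 0 := by
    intro p hp b a i
    rw [J.pd_comm, hf i p hp, map_zero]
  have hDH : ∀ a b, J.D (J.pd (K+1) b (J.pd (K+1) a ρ)) = 0 := by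
    intro a b
    have h1 := congrArg (J.pd (K+2) b) (hσ1 a)
    rw [map_add, map_add, J.pd_D_succ, J.pd_low, hρ (K+2) (by omega), map_sum] at h1
    have h2 : J.low K a (0 : A) = 0 := by
      cases K with
      | zero => rfl
      | succ K => exact map_zero _
    have h3 : ∑ x, (J.pd (K + 2) b) ((J.pd (K + 1) x) ρ * (J.pd 1 a) (f x)) = 0 := by
      refine Finset.sum_eq_zero fun i _ => ?_
      rw [Derivation.leibniz, hρ0 (K+2) (by omega), hf0 (K+2) (by omega)]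
      simp
    rw [h2, h3, h22, map_neg, h21, J.pd_comm (K+2) b (K+1) a σ, h21] at h1
    have e1 : J.pd (K+1) b (J.pd K a ρ) = J.pd K a (J.pd (K+1) b ρ) := J.pd_comm _ _ _ _ _
    have e2 : J.pd (K+1) a (J.pd K b ρ) = J.pd K b (J.pd (K+1) a ρ) := J.pd_comm _ _ _ _ _
    have e3 : J.pd (K+1) a (J.pd (K+1) b ρ) = J.pd (K+1) b (J.pd (K+1) a ρ) := J.pd_comm _ _ _ _ _
    rw [e1, e2, e3] at h1
    have h4 : (3 : 𝕜) • J.D (J.pd (K+1) b (J.pd (K+1) a ρ)) = 0 := by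
      have : (3 : 𝕜) • J.D (J.pd (K+1) b (J.pd (K+1) a ρ)) = 3 * J.D (J.pd (K+1) b (J.pd (K+1) a ρ)) := by
        rw [Algebra.smul_def, map_ofNat]
      rw [this]
      linear_combination h1
    have h5 := congrArg (fun z => (3 : 𝕜)⁻¹ • z) h4
    simpa [smul_smul] using h5
  have hH : ∀ a b n c, J.pd n c (J.pd (K+1) b (J.pd (K+1) a ρ)) = 0 := by
    intro a b n c
    exact J.pd_eq_zero_of_D_eq_zero (hDH a b) n c
  -- relation (ii)
  have hrel : ∀ a b, ∑ i, J.pd 1 a (f i) * J.pd (K+1) i (J.pd (K+1) b ρ)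
      - ∑ i, J.pd 1 b (f i) * J.pd (K+1) i (J.pd (K+1) a ρ) =
      J.D ((J.pd (K+1) b (J.pd (K+2) a σ) - J.pd K b (J.pd (K+3) a σ)) -
        (J.pd (K+1) a (J.pd (K+2) b σ) - J.pd K a (J.pd (K+3) b σ))) := by
    intro a b
    have G1 : ∀ a b, J.pd (K+1) b (J.low K a ρ) +
        ∑ i, (J.pd 1 a (f i) * J.pd (K+1) i (J.pd (K+1) b ρ)
          + J.pd (K+1) i ρ * J.pd (K+1) b (J.pd 1 a (f i))) =
        J.D (J.pd (K+1) b (J.pd (K+2) a σ)) + J.pd K b (J.pd (K+2) a σ) +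
          J.pd (K+1) b (J.pd (K+1) a σ) := by
      intro a b
      have h1 := congrArg (J.pd (K+1) b) (hσ1 a)
      rw [map_add, map_add, J.pd_D_succ, map_sum] at h1
      rw [← h1]
      congr 1
      refine Finset.sum_congr rfl fun i _ => ?_
      rw [Derivation.leibniz, J.pd_comm (K+1) b (K+1) i ρ]
      simp only [smul_eq_mul]
      ring
    have G2 : ∀ a b, J.pd K b (J.pd K a ρ) = J.D (J.pd K b (J.pd (K+3) a σ)) +
        J.low K b (J.pd (K+1) a ρ) + J.pd K b (J.pd (K+2) a σ) := by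
      intro a b
      have h1 := congrArg (J.pd K b) (hσ2 a)
      rw [map_add, J.pd_D] at h1
      rw [hσ3]
      exact h1
    have s1 : ∑ i, J.pd (K+1) i ρ * J.pd (K+1) b (J.pd 1 a (f i)) =
        ∑ i, J.pd (K+1) i ρ * J.pd (K+1) a (J.pd 1 b (f i)) := by
      refine Finset.sum_congr rfl fun i _ => ?_
      congr 1
      cases K with
      | zero => exact J.pd_comm _ _ _ _ _
      | succ K => rw [hf0 _ (by omega), hf0 _ (by omega)]
    have ga := G1 a b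
    have gb := G1 b a
    have ha := G2 a b
    have hb := G2 b a
    rw [Finset.sum_add_distrib] at ga gb
    have e1 : J.pd (K+1) b (J.low K a ρ) = J.low K a (J.pd (K+1) b ρ) := J.pd_low _ _ _ _ _
    have e2 : J.pd (K+1) a (J.low K b ρ) = J.low K b (J.pd (K+1) a ρ) := J.pd_low _ _ _ _ _
    have e3 : J.pd K b (J.pd K a ρ) = J.pd K a (J.pd K b ρ) := J.pd_comm _ _ _ _ _
    have e4 : J.pd (K+1) b (J.pd (K+1) a σ) = J.pd (K+1) a (J.pd (K+1) b σ) := J.pd_comm _ _ _ _ _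
    simp only [map_sub]
    linear_combination ga - gb - ha + hb - e1 + e2 + e3 + e4 - s1
  -- final
  set g : A := ((J.pd (K+1) b (J.pd (K+2) a σ) - J.pd K b (J.pd (K+3) a σ)) -
        (J.pd (K+1) a (J.pd (K+2) b σ) - J.pd K a (J.pd (K+3) b σ))) with hg
  have hq := hrel a b
  rw [← hg] at hq
  have hpq : ∀ p c, J.pd p c (J.D g) = ∑ i, J.pd p c (J.pd 1 a (f i)) * J.pd (K+1) i (J.pd (K+1) b ρ)
      - ∑ i, J.pd p c (J.pd 1 b (f i)) * J.pd (K+1) i (J.pd (K+1) a ρ) := by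
    intro p c
    rw [← hq, map_sub, map_sum, map_sum]
    congr 1 <;>
    · refine Finset.sum_congr rfl fun i _ => ?_
      rw [Derivation.leibniz, hH]
      simp [mul_comm]
  have hg1 : ∀ p, 1 ≤ p → ∀ c, J.pd p c g = 0 := by
    refine J.pd_eq_zero_of_pd_D ?_
    intro p hp c
    rw [hpq]
    have : ∀ a i, J.pd p c (J.pd 1 a (f i)) = 0 := fun a i => hf0 p (by omega) c a i
    simp [this]
  have hc := hpq 1 c
  rw [J.pd_D_succ, hg1 1 le_rfl, map_zero, zero_add] at hc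
  have hd := congrArg (J.pd 1 d) hc
  rw [J.pd_comm, hg1 1 le_rfl, map_zero, map_sub, map_sum, map_sum] at hd
  have hd' : ∑ i, J.pd 1 d (J.pd 1 c (J.pd 1 a (f i))) * J.pd (K+1) i (J.pd (K+1) b ρ) -
    ∑ i, J.pd 1 d (J.pd 1 c (J.pd 1 b (f i))) * J.pd (K+1) i (J.pd (K+1) a ρ) = 0 := by
    rw [hd]
    congr 1 <;>
    · refine Finset.sum_congr rfl fun i _ => ?_
      rw [Derivation.leibniz, hH]
      simp [mul_comm]
  exact sub_eq_zero.mp hd'

end JetCalc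

/-! ## The algebra of differential functions on an open set of jets -/

section

variable {𝕜 : Type} [RCLike 𝕜] {N : ℕ}

lemma trunc_add (k : ℕ) (j v : Jet 𝕜 N) : trunc k (j + v) = trunc k j + trunc k v := rfl

lemma trunc_smul (k : ℕ) (t : 𝕜) (v : Jet 𝕜 N) : trunc k (t • v) = t • trunc k v := rfl

lemma continuous_line (j v : Jet 𝕜 N) : Continuous (fun t : 𝕜 => j + t • v) := by
  fun_prop

lemma eventually_line {Ω : Set (Jet 𝕜 N)} (hΩ : IsOpen Ω) {j : Jet 𝕜 N} (hj : j ∈ Ω)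
    (v : Jet 𝕜 N) : ∀ᶠ t : 𝕜 in nhds 0, j + t • v ∈ Ω := by
  have h := (continuous_line j v).continuousAt (x := (0 : 𝕜))
  have : Ω ∈ nhds (j + (0 : 𝕜) • v) := by
    rw [zero_smul, add_zero]; exact hΩ.mem_nhds hj
  exact h this

lemma hasLineDerivAt_of_rep {Ω : Set (Jet 𝕜 N)} (hΩ : IsOpen Ω) {k : ℕ}
    {f : (Fin (k + 1) → Fin N → 𝕜) → 𝕜} {G : Jet 𝕜 N → 𝕜}
    (hG : ∀ j ∈ Ω, AnalyticAt 𝕜 f (trunc k j) ∧ G j = f (trunc k j)) {j : Jet 𝕜 N} (hj : j ∈ Ω)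
    (v : Jet 𝕜 N) :
    HasLineDerivAt 𝕜 G (fderiv 𝕜 f (trunc k j) (trunc k v)) j v := by
  have h1 : HasFDerivAt f (fderiv 𝕜 f (trunc k j)) (trunc k j + (0 : 𝕜) • trunc k v) := by
    rw [zero_smul, add_zero]
    exact (hG j hj).1.differentiableAt.hasFDerivAt
  have h2 : HasDerivAt (fun t : 𝕜 => trunc k j + t • trunc k v) (trunc k v) 0 := by
    simpa using ((hasDerivAt_id (0 : 𝕜)).smul_const (trunc k v)).const_add (trunc k j)
  have h3 := h1.comp_hasDerivAt (0 : 𝕜) h2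
  refine HasDerivAt.congr_of_eventuallyEq h3 ?_
  filter_upwards [eventually_line hΩ hj v] with t ht
  exact (hG _ ht).2

/-- extension by zero -/
noncomputable def ext0 (Ω : Set (Jet 𝕜 N)) (F : Ω → 𝕜) (j : Jet 𝕜 N) : 𝕜 :=
  open Classical in if h : j ∈ Ω then F ⟨j, h⟩ else 0

lemma ext0_mem {Ω : Set (Jet 𝕜 N)} (F : Ω → 𝕜) (j : Ω) : ext0 Ω F j = F j := by
  simp [ext0]

lemma ext0_add {Ω : Set (Jet 𝕜 N)} (F G : Ω → 𝕜) (j : Jet 𝕜 N) :
    ext0 Ω (F + G) j = ext0 Ω F j + ext0 Ω G j := by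
  unfold ext0; split_ifs <;> simp

lemma ext0_mul {Ω : Set (Jet 𝕜 N)} (F G : Ω → 𝕜) (j : Jet 𝕜 N) :
    ext0 Ω (F * G) j = ext0 Ω F j * ext0 Ω G j := by
  unfold ext0; split_ifs <;> simp

lemma ext0_smul {Ω : Set (Jet 𝕜 N)} (c : 𝕜) (F : Ω → 𝕜) (j : Jet 𝕜 N) :
    ext0 Ω (c • F) j = c * ext0 Ω F j := by
  unfold ext0; split_ifs <;> simp

/-- representability by a function of finitely many jet variables -/
def Rep (Ω : Set (Jet 𝕜 N)) (k : ℕ) (f : (Fin (k + 1) → Fin N → 𝕜) → 𝕜) (F : Ω → 𝕜) : Prop :=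
  ∀ j : Ω, AnalyticAt 𝕜 f (trunc k (j : Jet 𝕜 N)) ∧ F j = f (trunc k (j : Jet 𝕜 N))

lemma Rep.ext0 {Ω : Set (Jet 𝕜 N)} {k : ℕ} {f : (Fin (k + 1) → Fin N → 𝕜) → 𝕜} {F : Ω → 𝕜}
    (h : Rep Ω k f F) : ∀ j ∈ Ω, AnalyticAt 𝕜 f (trunc k j) ∧ ext0 Ω F j = f (trunc k j) := by
  intro j hj
  have := h ⟨j, hj⟩
  refine ⟨this.1, ?_⟩
  rw [← this.2]
  exact ext0_mem F ⟨j, hj⟩

/-- restriction of finite jets -/
noncomputable def resL {k k' : ℕ} (h : k ≤ k') :
    (Fin (k' + 1) → Fin N → 𝕜) →L[𝕜] (Fin (k + 1) → Fin N → 𝕜) :=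
  ContinuousLinearMap.pi (fun n => ContinuousLinearMap.proj (Fin.castLE (Nat.succ_le_succ h) n))

lemma resL_trunc {k k' : ℕ} (h : k ≤ k') (j : Jet 𝕜 N) : resL h (trunc k' j) = trunc k j := rfl

lemma Rep.mono {Ω : Set (Jet 𝕜 N)} {k k' : ℕ} {f : (Fin (k + 1) → Fin N → 𝕜) → 𝕜} {F : Ω → 𝕜}
    (h : Rep Ω k f F) (hk : k ≤ k') : Rep Ω k' (fun y => f (resL (𝕜 := 𝕜) hk y)) F := by
  intro j
  refine ⟨?_, ?_⟩
  · have h1 : AnalyticAt 𝕜 f (resL (𝕜 := 𝕜) hk (trunc k' (j : Jet 𝕜 N))) := by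
      rw [resL_trunc]; exact (h j).1
    exact AnalyticAt.comp (g := f) (f := fun y => resL (𝕜 := 𝕜) hk y) h1
      ((resL (𝕜 := 𝕜) hk).analyticAt _)
  · show F j = f (resL (𝕜 := 𝕜) hk (trunc k' (j : Jet 𝕜 N)))
    rw [resL_trunc]; exact (h j).2

/-- The algebra of differential functions on `Ω`. -/
def diffAlg (Ω : Set (Jet 𝕜 N)) : Subalgebra 𝕜 (Ω → 𝕜) where
  carrier := {F | ∃ k f, Rep Ω k f F}
  mul_mem' := by
    rintro F G ⟨k, f, hf⟩ ⟨l, g, hg⟩
    refine ⟨max k l, fun y => f (resL (le_max_left k l) y) * g (resL (le_max_right k l) y), ?_⟩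
    intro j
    have h1 := hf.mono (le_max_left k l) j
    have h2 := hg.mono (le_max_right k l) j
    exact ⟨h1.1.mul h2.1, by rw [Pi.mul_apply, h1.2, h2.2]⟩
  add_mem' := by
    rintro F G ⟨k, f, hf⟩ ⟨l, g, hg⟩
    refine ⟨max k l, fun y => f (resL (le_max_left k l) y) + g (resL (le_max_right k l) y), ?_⟩
    intro j
    have h1 := hf.mono (le_max_left k l) j
    have h2 := hg.mono (le_max_right k l) j
    exact ⟨h1.1.add h2.1, by rw [Pi.add_apply, h1.2, h2.2]⟩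
  algebraMap_mem' := by
    intro c
    exact ⟨0, fun _ => c, fun j => ⟨analyticAt_const, rfl⟩⟩

lemma Rep.fderiv {Ω : Set (Jet 𝕜 N)} {k : ℕ} {f : (Fin (k + 1) → Fin N → 𝕜) → 𝕜} {F : Ω → 𝕜}
    (h : Rep Ω k f F) (w : Fin (k + 1) → Fin N → 𝕜) :
    Rep Ω k (fun y => fderiv 𝕜 f y w) (fun j => fderiv 𝕜 f (trunc k (j : Jet 𝕜 N)) w) := by
  intro j
  refine ⟨?_, rfl⟩
  exact ((ContinuousLinearMap.apply 𝕜 𝕜 w).analyticAt _).comp (h j).1.fderiv

/-- coordinate functions -/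
def X (Ω : Set (Jet 𝕜 N)) (n : ℕ) (i : Fin N) : diffAlg Ω :=
  ⟨fun j => (j : Jet 𝕜 N) n i, n, fun y => y (Fin.last n) i, fun j => ⟨by
    have h := ContinuousLinearMap.analyticAt
      ((ContinuousLinearMap.proj (R := 𝕜) (φ := fun _ : Fin N => 𝕜) i).comp
        (ContinuousLinearMap.proj (R := 𝕜) (φ := fun _ : Fin (n + 1) => Fin N → 𝕜) (Fin.last n)))
      (trunc n (j : Jet 𝕜 N))
    exact h, rfl⟩⟩

lemma sum_single_expand (k : ℕ) (w : Fin (k + 1) → Fin N → 𝕜)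
    (L : (Fin (k + 1) → Fin N → 𝕜) →L[𝕜] 𝕜) :
    L w = ∑ n, ∑ i, L (Pi.single n (Pi.single i 1)) * w n i := by
  have hw : w = ∑ n, ∑ i, w n i • (Pi.single n (Pi.single i (1:𝕜)) : Fin (k + 1) → Fin N → 𝕜) := by
    funext n i
    simp only [Finset.sum_apply, Pi.smul_apply, smul_eq_mul]
    rw [Finset.sum_eq_single n]
    · rw [Finset.sum_eq_single i]
      · simp
      · intro b _ hb; simp [hb.symm]
      · simp
    · intro b _ hb
      refine Finset.sum_eq_zero fun c _ => ?_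
      simp [hb.symm]
    · simp
  conv_lhs => rw [hw]
  simp only [map_sum, map_smul, smul_eq_mul]
  refine Finset.sum_congr rfl fun n _ => Finset.sum_congr rfl fun i _ => ?_
  ring

lemma lineDeriv_ext0_mem {Ω : Set (Jet 𝕜 N)} (hΩ : IsOpen Ω) (V : ℕ → Fin N → diffAlg Ω)
    (F : diffAlg Ω) :
    (fun j : Ω => lineDeriv 𝕜 (ext0 Ω F.1) (j : Jet 𝕜 N) (fun n i => (V n i).1 j)) ∈ diffAlg Ω := by
  obtain ⟨F, k, f, hf⟩ := F
  have h1 : (fun j : Ω => lineDeriv 𝕜 (ext0 Ω F) (j : Jet 𝕜 N) (fun n i => (V n i).1 j)) =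
      ∑ n : Fin (k + 1), ∑ i,
        (fun j : Ω => fderiv 𝕜 f (trunc k (j : Jet 𝕜 N)) (Pi.single n (Pi.single i 1)))
          * (V n i).1 := by
    funext j
    rw [(hasLineDerivAt_of_rep hΩ hf.ext0 j.2 _).lineDeriv, sum_single_expand]
    simp only [Finset.sum_apply, Pi.mul_apply]
    rfl
  rw [h1]
  exact Subalgebra.sum_mem _ fun n _ => Subalgebra.sum_mem _ fun i _ =>
    Subalgebra.mul_mem _ ⟨k, _, hf.fderiv _⟩ (V n i).2

lemma hasLineDerivAt_ext0 {Ω : Set (Jet 𝕜 N)} (hΩ : IsOpen Ω) (F : diffAlg Ω) (j : Ω)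
    (v : Jet 𝕜 N) :
    HasLineDerivAt 𝕜 (ext0 Ω F.1) (lineDeriv 𝕜 (ext0 Ω F.1) (j : Jet 𝕜 N) v) (j : Jet 𝕜 N) v := by
  obtain ⟨F, k, f, hf⟩ := F
  have h := hasLineDerivAt_of_rep hΩ hf.ext0 j.2 v
  rw [h.lineDeriv]; exact h

/-- Derivation along a vector field whose coefficients are differential functions. -/
noncomputable def along {Ω : Set (Jet 𝕜 N)} (hΩ : IsOpen Ω) (V : ℕ → Fin N → diffAlg Ω) :
    Derivation 𝕜 (diffAlg Ω) (diffAlg Ω) :=
  Derivation.mk'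
    { toFun := fun F => ⟨fun j => lineDeriv 𝕜 (ext0 Ω F.1) (j : Jet 𝕜 N) (fun n i => (V n i).1 j),
        lineDeriv_ext0_mem hΩ V F⟩
      map_add' := by
        intro F G
        apply Subtype.ext
        funext j
        have h1 := hasLineDerivAt_ext0 hΩ F j (fun n i => (V n i).1 j)
        have h2 := hasLineDerivAt_ext0 hΩ G j (fun n i => (V n i).1 j)
        have h3 : HasLineDerivAt 𝕜 (ext0 Ω (F + G).1)
            (lineDeriv 𝕜 (ext0 Ω F.1) (j : Jet 𝕜 N) (fun n i => (V n i).1 j) +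
              lineDeriv 𝕜 (ext0 Ω G.1) (j : Jet 𝕜 N) (fun n i => (V n i).1 j))
            (j : Jet 𝕜 N) (fun n i => (V n i).1 j) := by
          have := HasDerivAt.add h1 h2
          refine HasDerivAt.congr_of_eventuallyEq this (Filter.Eventually.of_forall fun t => ?_)
          exact ext0_add F.1 G.1 _
        exact h3.lineDeriv
      map_smul' := by
        intro c F
        apply Subtype.ext
        funext j
        have h1 := hasLineDerivAt_ext0 hΩ F j (fun n i => (V n i).1 j)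
        have h3 : HasLineDerivAt 𝕜 (ext0 Ω (c • F).1)
            (c * lineDeriv 𝕜 (ext0 Ω F.1) (j : Jet 𝕜 N) (fun n i => (V n i).1 j))
            (j : Jet 𝕜 N) (fun n i => (V n i).1 j) := by
          have := HasDerivAt.const_mul c h1
          refine HasDerivAt.congr_of_eventuallyEq this (Filter.Eventually.of_forall fun t => ?_)
          exact ext0_smul c F.1 _
        exact h3.lineDeriv }
    (by
      intro F G
      apply Subtype.ext
      funext j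
      have h1 := hasLineDerivAt_ext0 hΩ F j (fun n i => (V n i).1 j)
      have h2 := hasLineDerivAt_ext0 hΩ G j (fun n i => (V n i).1 j)
      have h3 : HasLineDerivAt 𝕜 (ext0 Ω (F * G).1)
          (F.1 j * lineDeriv 𝕜 (ext0 Ω G.1) (j : Jet 𝕜 N) (fun n i => (V n i).1 j) +
            G.1 j * lineDeriv 𝕜 (ext0 Ω F.1) (j : Jet 𝕜 N) (fun n i => (V n i).1 j))
          (j : Jet 𝕜 N) (fun n i => (V n i).1 j) := by
        have := HasDerivAt.mul h1 h2
        simp only [zero_smul, add_zero, ext0_mem] at this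
        rw [show F.1 j * lineDeriv 𝕜 (ext0 Ω G.1) (j : Jet 𝕜 N) (fun n i => (V n i).1 j) +
            G.1 j * lineDeriv 𝕜 (ext0 Ω F.1) (j : Jet 𝕜 N) (fun n i => (V n i).1 j) =
            lineDeriv 𝕜 (ext0 Ω F.1) (j : Jet 𝕜 N) (fun n i => (V n i).1 j) * G.1 j +
            F.1 j * lineDeriv 𝕜 (ext0 Ω G.1) (j : Jet 𝕜 N) (fun n i => (V n i).1 j) by ring]
        refine HasDerivAt.congr_of_eventuallyEq this (Filter.Eventually.of_forall fun t => ?_)
        exact ext0_mul F.1 G.1 _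
      exact h3.lineDeriv)

lemma along_apply {Ω : Set (Jet 𝕜 N)} (hΩ : IsOpen Ω) (V : ℕ → Fin N → diffAlg Ω)
    {k : ℕ} {f : (Fin (k + 1) → Fin N → 𝕜) → 𝕜} {F : diffAlg Ω} (hf : Rep Ω k f F.1) (j : Ω) :
    (along hΩ V F).1 j = fderiv 𝕜 f (trunc k (j : Jet 𝕜 N)) (trunc k (fun n i => (V n i).1 j)) := by
  show lineDeriv 𝕜 (ext0 Ω F.1) j (fun n i => (V n i).1 j) = _
  exact (hasLineDerivAt_of_rep hΩ hf.ext0 j.2 _).lineDeriv

/-- the shift of finite jets -/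
noncomputable def shiftL (k : ℕ) :
    (Fin (k + 2) → Fin N → 𝕜) →L[𝕜] (Fin (k + 1) → Fin N → 𝕜) :=
  ContinuousLinearMap.pi (fun n => ContinuousLinearMap.proj (Fin.succ n))

/-- the coordinate jet -/
def eJet (n : ℕ) (i : Fin N) : Jet 𝕜 N := Pi.single n (Pi.single i 1)

noncomputable def pdV (Ω : Set (Jet 𝕜 N)) (n : ℕ) (i : Fin N) : ℕ → Fin N → diffAlg Ω :=
  fun m l => algebraMap 𝕜 _ ((eJet n i : Jet 𝕜 N) m l)

lemma rep_pd {Ω : Set (Jet 𝕜 N)} (hΩ : IsOpen Ω) {k : ℕ} {f : (Fin (k + 1) → Fin N → 𝕜) → 𝕜}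
    {F : diffAlg Ω} (hf : Rep Ω k f F.1) (n : ℕ) (i : Fin N) :
    Rep Ω k (fun y => fderiv 𝕜 f y (trunc k (eJet n i))) (along hΩ (pdV Ω n i) F).1 := by
  intro j
  refine ⟨((hf.fderiv (trunc k (eJet n i))) j).1, ?_⟩
  rw [along_apply hΩ _ hf]
  rfl

lemma rep_D {Ω : Set (Jet 𝕜 N)} (hΩ : IsOpen Ω) {k : ℕ} {f : (Fin (k + 1) → Fin N → 𝕜) → 𝕜}
    {F : diffAlg Ω} (hf : Rep Ω k f F.1) :
    Rep Ω (k + 1) (fun y => fderiv 𝕜 f (resL (𝕜 := 𝕜) (Nat.le_succ k) y) (shiftL k y))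
      (along hΩ (fun n i => X Ω (n + 1) i) F).1 := by
  intro j
  constructor
  · have h1 : AnalyticAt 𝕜 (fderiv 𝕜 f) (resL (𝕜 := 𝕜) (Nat.le_succ k) (trunc (k + 1) (j : Jet 𝕜 N))) := by
      rw [resL_trunc]; exact (hf j).1.fderiv
    have h2 : AnalyticAt 𝕜 (fun y => fderiv 𝕜 f (resL (𝕜 := 𝕜) (Nat.le_succ k) y))
        (trunc (k + 1) (j : Jet 𝕜 N)) :=
      AnalyticAt.comp (g := fderiv 𝕜 f) (f := fun y => resL (𝕜 := 𝕜) (Nat.le_succ k) y) h1
        (ContinuousLinearMap.analyticAt _ _)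
    have h3 : AnalyticAt 𝕜 (fun y => shiftL (𝕜 := 𝕜) (N := N) k y)
        (trunc (k + 1) (j : Jet 𝕜 N)) := ContinuousLinearMap.analyticAt _ _
    have h4 := (ContinuousLinearMap.id 𝕜 ((Fin (k + 1) → Fin N → 𝕜) →L[𝕜] 𝕜)).analyticAt_bilinear
      (fderiv 𝕜 f (resL (𝕜 := 𝕜) (Nat.le_succ k) (trunc (k + 1) (j : Jet 𝕜 N))),
        shiftL (𝕜 := 𝕜) (N := N) k (trunc (k + 1) (j : Jet 𝕜 N)))
    exact AnalyticAt.comp₂ h4 h2 h3
  · rw [along_apply hΩ _ hf]
    rfl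

lemma pd_D_general {Ω : Set (Jet 𝕜 N)} (hΩ : IsOpen Ω) {k : ℕ}
    {f : (Fin (k + 1) → Fin N → 𝕜) → 𝕜} {F : diffAlg Ω} (hf : Rep Ω k f F.1) (n : ℕ) (i : Fin N)
    (j : Ω) :
    (along hΩ (pdV Ω n i) (along hΩ (fun n i => X Ω (n + 1) i) F)).1 j =
      (along hΩ (fun n i => X Ω (n + 1) i) (along hΩ (pdV Ω n i) F)).1 j +
      fderiv 𝕜 f (trunc k (j : Jet 𝕜 N)) (trunc k (fun m => (eJet n i : Jet 𝕜 N) (m + 1))) := by
  have hd : DifferentiableAt 𝕜 (fderiv 𝕜 f) (trunc k (j : Jet 𝕜 N)) :=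
    (hf j).1.fderiv.differentiableAt
  have hd' : DifferentiableAt 𝕜 (fderiv 𝕜 f)
      (resL (𝕜 := 𝕜) (Nat.le_succ k) (trunc (k + 1) (j : Jet 𝕜 N))) := by
    rw [resL_trunc]; exact hd
  have hs : IsSymmSndFDerivAt 𝕜 f (trunc k (j : Jet 𝕜 N)) :=
    ContDiffAt.isSymmSndFDerivAt_of_omega (hf j).1.contDiffAt
  have hc : HasFDerivAt (fun y => fderiv 𝕜 f (resL (𝕜 := 𝕜) (Nat.le_succ k) y))
      ((fderiv 𝕜 (fderiv 𝕜 f) (trunc k (j : Jet 𝕜 N))).comp (resL (𝕜 := 𝕜) (Nat.le_succ k)))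
      (trunc (k + 1) (j : Jet 𝕜 N)) :=
    HasFDerivAt.comp (g := fderiv 𝕜 f) (f := fun y => resL (𝕜 := 𝕜) (Nat.le_succ k) y)
      (trunc (k + 1) (j : Jet 𝕜 N)) hd'.hasFDerivAt (resL (𝕜 := 𝕜) (Nat.le_succ k)).hasFDerivAt
  have hu : HasFDerivAt (⇑(shiftL (𝕜 := 𝕜) (N := N) k)) (shiftL (𝕜 := 𝕜) (N := N) k)
      (trunc (k + 1) (j : Jet 𝕜 N)) := (shiftL (𝕜 := 𝕜) (N := N) k).hasFDerivAt
  rw [along_apply hΩ _ (rep_D hΩ hf), along_apply hΩ _ (rep_pd hΩ hf n i)]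
  rw [show (fderiv 𝕜 (fun y => (fderiv 𝕜 f (resL (𝕜 := 𝕜) (Nat.le_succ k) y)) (shiftL (𝕜 := 𝕜) (N := N) k y))
    (trunc (k + 1) (j : Jet 𝕜 N))) = _ from (hc.clm_apply hu).fderiv, fderiv_clm_apply hd (differentiableAt_const _)]
  simp only [fderiv_fun_const, Pi.zero_apply, ContinuousLinearMap.comp_zero, zero_add,
    ContinuousLinearMap.flip_apply, add_apply, ContinuousLinearMap.comp_apply]
  rw [add_comm]
  congr 1
  exact hs _ _

/-- The calculus on the algebra of differential functions. -/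
noncomputable def jetCalc {Ω : Set (Jet 𝕜 N)} (hΩ : IsOpen Ω) : JetCalc 𝕜 (diffAlg Ω) N where
  D := along hΩ (fun n i => X Ω (n + 1) i)
  pd n i := along hΩ (pdV Ω n i)
  X := X Ω
  pd_X := by
    intro n i m l
    apply Subtype.ext
    funext j
    have hrep : Rep Ω m (fun y => y (Fin.last m) l) (X Ω m l).1 := by
      intro j
      refine ⟨?_, rfl⟩
      exact ContinuousLinearMap.analyticAt
        ((ContinuousLinearMap.proj (R := 𝕜) (φ := fun _ : Fin N => 𝕜) l).comp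
          (ContinuousLinearMap.proj (R := 𝕜) (φ := fun _ : Fin (m + 1) => Fin N → 𝕜) (Fin.last m)))
        (trunc m (j : Jet 𝕜 N))
    rw [along_apply hΩ _ hrep]
    have h1 : fderiv 𝕜 (fun y : Fin (m + 1) → Fin N → 𝕜 => y (Fin.last m) l) (trunc m (j : Jet 𝕜 N))
        = (ContinuousLinearMap.proj (R := 𝕜) (φ := fun _ : Fin N => 𝕜) l).comp
          (ContinuousLinearMap.proj (R := 𝕜) (φ := fun _ : Fin (m + 1) => Fin N → 𝕜) (Fin.last m)) :=
      ContinuousLinearMap.fderiv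
        ((ContinuousLinearMap.proj (R := 𝕜) (φ := fun _ : Fin N => 𝕜) l).comp
          (ContinuousLinearMap.proj (R := 𝕜) (φ := fun _ : Fin (m + 1) => Fin N → 𝕜) (Fin.last m)))
    rw [h1]
    show (eJet n i : Jet 𝕜 N) m l = _
    unfold eJet
    by_cases hnm : n = m
    · subst hnm
      by_cases hil : i = l
      · subst hil; simp
      · simp [hil, Ne.symm hil]
    · have : (Pi.single n (Pi.single i 1) : Jet 𝕜 N) m = 0 := by
        simp [Ne.symm hnm]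
      rw [this]
      simp [hnm]
  pd_comm := by
    intro n i m l F
    obtain ⟨k, f, hf⟩ : ∃ k f, Rep Ω k f F.1 := F.2
    apply Subtype.ext
    funext j
    have hd : DifferentiableAt 𝕜 (fderiv 𝕜 f) (trunc k (j : Jet 𝕜 N)) :=
      (hf j).1.fderiv.differentiableAt
    have hs : IsSymmSndFDerivAt 𝕜 f (trunc k (j : Jet 𝕜 N)) :=
      ContDiffAt.isSymmSndFDerivAt_of_omega (hf j).1.contDiffAt
    rw [along_apply hΩ _ (rep_pd hΩ hf m l), along_apply hΩ _ (rep_pd hΩ hf n i)]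
    rw [fderiv_clm_apply hd (differentiableAt_const _), fderiv_clm_apply hd (differentiableAt_const _)]
    simp only [fderiv_fun_const, Pi.zero_apply, ContinuousLinearMap.comp_zero, zero_add,
      ContinuousLinearMap.flip_apply]
    exact hs _ _
  pd_D_zero := by
    intro i F
    obtain ⟨k, f, hf⟩ : ∃ k f, Rep Ω k f F.1 := F.2
    apply Subtype.ext
    funext j
    rw [pd_D_general hΩ hf 0 i j]
    have : trunc k (fun m => (eJet 0 i : Jet 𝕜 N) (m + 1)) = 0 := by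
      funext m l
      show (Pi.single 0 (Pi.single i 1) : Jet 𝕜 N) (m + 1) l = 0
      rw [Pi.single_apply, if_neg (by omega)]; rfl
    rw [this, map_zero, add_zero]
  pd_D_succ := by
    intro n i F
    obtain ⟨k, f, hf⟩ : ∃ k f, Rep Ω k f F.1 := F.2
    apply Subtype.ext
    funext j
    rw [pd_D_general hΩ hf (n + 1) i j]
    have : (fun m => (eJet (n + 1) i : Jet 𝕜 N) (m + 1)) = eJet n i := by
      funext m
      show (Pi.single (n + 1) (Pi.single i 1) : Jet 𝕜 N) (m + 1) =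
        (Pi.single n (Pi.single i 1) : Jet 𝕜 N) m
      rw [Pi.single_apply, Pi.single_apply]
      by_cases h : m = n
      · rw [if_pos h, if_pos (by omega)]
      · rw [if_neg h, if_neg (by omega)]
    rw [this]
    have h2 : (along hΩ (pdV Ω n i) F).1 j =
        fderiv 𝕜 f (trunc k (j : Jet 𝕜 N)) (trunc k (eJet n i)) := by
      rw [along_apply hΩ _ hf]; rfl
    rw [← h2]
    rfl
  fin := by
    intro F
    obtain ⟨k, f, hf⟩ : ∃ k f, Rep Ω k f F.1 := F.2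
    refine ⟨k, fun n hn i => ?_⟩
    apply Subtype.ext
    funext j
    rw [along_apply hΩ _ hf]
    have : trunc k (fun m l => (pdV Ω n i m l).1 j) = 0 := by
      funext m l
      show (eJet n i : Jet 𝕜 N) m l = 0
      unfold eJet
      have : (Pi.single n (Pi.single i 1) : Jet 𝕜 N) m = 0 := by
        rw [Pi.single_apply, if_neg]; omega
      rw [this]; rfl
    rw [this, map_zero]; rfl


/-! ## Bridging between functions on jets and the algebra -/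

lemma rep_coe {Ω : Set (Jet 𝕜 N)} (g : diffAlg Ω) : ∃ k f, Rep Ω k f g.1 := g.2

lemma lineDeriv_eq_along {Ω : Set (Jet 𝕜 N)} (hΩ : IsOpen Ω) (V : ℕ → Fin N → diffAlg Ω)
    (g : diffAlg Ω) (G : Jet 𝕜 N → 𝕜) (hG : ∀ j : Ω, G j = g.1 j) (j : Ω) :
    lineDeriv 𝕜 G j (fun n i => (V n i).1 j) = (along hΩ V g).1 j := by
  obtain ⟨k, f, hf⟩ := rep_coe g
  have h1 : ∀ j ∈ Ω, AnalyticAt 𝕜 f (trunc k j) ∧ G j = f (trunc k j) := by
    intro j hj
    have := hf ⟨j, hj⟩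
    exact ⟨this.1, by rw [hG ⟨j, hj⟩]; exact this.2⟩
  rw [along_apply hΩ V hf, (hasLineDerivAt_of_rep hΩ h1 j.2 _).lineDeriv]

lemma totalDeriv_eq {Ω : Set (Jet 𝕜 N)} (hΩ : IsOpen Ω) (g : diffAlg Ω) (G : Jet 𝕜 N → 𝕜)
    (hG : ∀ j : Ω, G j = g.1 j) (j : Ω) : totalDeriv G j = ((jetCalc hΩ).D g).1 j :=
  lineDeriv_eq_along hΩ (fun n i => X Ω (n + 1) i) g G hG j

lemma totalDeriv_iter_eq {Ω : Set (Jet 𝕜 N)} (hΩ : IsOpen Ω) (g : diffAlg Ω) (G : Jet 𝕜 N → 𝕜)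
    (hG : ∀ j : Ω, G j = g.1 j) (n : ℕ) :
    ∀ j : Ω, (totalDeriv^[n] G) j = (((jetCalc hΩ).D)^[n] g).1 j := by
  induction n with
  | zero => exact hG
  | succ n ih =>
    intro j
    rw [Function.iterate_succ_apply', Function.iterate_succ_apply']
    exact totalDeriv_eq hΩ _ _ ih j

lemma jetDeriv_eq {Ω : Set (Jet 𝕜 N)} (hΩ : IsOpen Ω) (g : diffAlg Ω) (G : Jet 𝕜 N → 𝕜)
    (hG : ∀ j : Ω, G j = g.1 j) (n : ℕ) (i : Fin N) (j : Ω) :
    jetDeriv n i G j = ((jetCalc hΩ).pd n i g).1 j :=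
  lineDeriv_eq_along hΩ (pdV Ω n i) g G hG j

lemma along_eq_sum {Ω : Set (Jet 𝕜 N)} (hΩ : IsOpen Ω) (V : ℕ → Fin N → diffAlg Ω)
    {k : ℕ} {f : (Fin (k + 1) → Fin N → 𝕜) → 𝕜} {g : diffAlg Ω} (hf : Rep Ω k f g.1) :
    along hΩ V g = ∑ n ∈ Finset.range (k + 1), ∑ i, (jetCalc hΩ).pd n i g * V n i := by
  apply Subtype.ext
  funext j
  rw [along_apply hΩ V hf, sum_single_expand, Finset.sum_range]
  simp only [AddSubmonoidClass.coe_finsetSum, Finset.sum_apply, MulMemClass.coe_mul, Pi.mul_apply]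
  refine Finset.sum_congr rfl fun n _ => Finset.sum_congr rfl fun i _ => ?_
  have h1 : ((jetCalc hΩ).pd n i g).1 j =
      fderiv 𝕜 f (trunc k (j : Jet 𝕜 N)) (trunc k (eJet (n : ℕ) i)) := by
    show (along hΩ (pdV Ω n i) g).1 j = _
    rw [along_apply hΩ _ hf]; rfl
  have h2 : trunc k (eJet (n : ℕ) i : Jet 𝕜 N) = Pi.single n (Pi.single i 1) := by
    funext m
    show (Pi.single (n : ℕ) (Pi.single i 1) : Jet 𝕜 N) m =
      (Pi.single n (Pi.single i 1) : Fin (k + 1) → Fin N → 𝕜) m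
    rw [Pi.single_apply, Pi.single_apply]
    by_cases h : m = n
    · subst h; simp
    · rw [if_neg h, if_neg (fun h' => h (Fin.ext h'))]
  rw [h1, h2]
  rfl

lemma D_iter_X {Ω : Set (Jet 𝕜 N)} (hΩ : IsOpen Ω) (n m : ℕ) (i : Fin N) :
    ((jetCalc hΩ).D)^[n] (X Ω m i) = X Ω (m + n) i := by
  induction n with
  | zero => rfl
  | succ n ih =>
    rw [Function.iterate_succ_apply', ih]
    apply Subtype.ext
    funext j
    have hrep : Rep Ω (m + n) (fun y => y (Fin.last (m + n)) i) (X Ω (m + n) i).1 := by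
      intro j
      refine ⟨?_, rfl⟩
      exact ContinuousLinearMap.analyticAt
        ((ContinuousLinearMap.proj (R := 𝕜) (φ := fun _ : Fin N => 𝕜) i).comp
          (ContinuousLinearMap.proj (R := 𝕜) (φ := fun _ : Fin (m + n + 1) => Fin N → 𝕜)
            (Fin.last (m + n))))
        (trunc (m + n) (j : Jet 𝕜 N))
    show (along hΩ (fun n i => X Ω (n + 1) i) (X Ω (m + n) i)).1 j = _
    rw [along_apply hΩ _ hrep]
    have h1 : fderiv 𝕜 (fun y : Fin (m + n + 1) → Fin N → 𝕜 => y (Fin.last (m + n)) i)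
        (trunc (m + n) (j : Jet 𝕜 N))
        = (ContinuousLinearMap.proj (R := 𝕜) (φ := fun _ : Fin N => 𝕜) i).comp
          (ContinuousLinearMap.proj (R := 𝕜) (φ := fun _ : Fin (m + n + 1) => Fin N → 𝕜)
            (Fin.last (m + n))) :=
      ContinuousLinearMap.fderiv
        ((ContinuousLinearMap.proj (R := 𝕜) (φ := fun _ : Fin N => 𝕜) i).comp
          (ContinuousLinearMap.proj (R := 𝕜) (φ := fun _ : Fin (m + n + 1) => Fin N → 𝕜)
            (Fin.last (m + n))))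
    rw [h1]
    rfl

/-- The evolutionary derivative, in the algebra of differential functions. -/
lemma evolDeriv_eq {Ω : Set (Jet 𝕜 N)} (hΩ : IsOpen Ω) (K : Jet 𝕜 N → Fin N → 𝕜)
    (φ : Fin N → diffAlg Ω) (hK : ∀ (j : Ω) (i : Fin N), K j i = (X Ω 3 i + φ i).1 j)
    {k : ℕ} {f : (Fin (k + 1) → Fin N → 𝕜) → 𝕜} {g : diffAlg Ω} (hf : Rep Ω k f g.1)
    (G : Jet 𝕜 N → 𝕜) (hG : ∀ j : Ω, G j = g.1 j) (j : Ω) :
    evolDeriv K G j = ((jetCalc hΩ).Dt φ k g).1 j := by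
  have h1 : (fun (n : ℕ) (i : Fin N) => totalDeriv^[n] (fun j' => K j' i) (j : Jet 𝕜 N)) =
      fun n i => ((((jetCalc hΩ).D)^[n] (X Ω 3 i + φ i)) : diffAlg Ω).1 j := by
    funext n i
    exact totalDeriv_iter_eq hΩ (X Ω 3 i + φ i) (fun j' => K j' i) (fun j => hK j i) n j
  unfold evolDeriv
  rw [h1, lineDeriv_eq_along hΩ (fun n i => (((jetCalc hΩ).D)^[n] (X Ω 3 i + φ i))) g G hG j,
    along_eq_sum hΩ _ hf]
  have h2 : (∑ n ∈ Finset.range (k + 1), ∑ i, (jetCalc hΩ).pd n i g *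
      ((jetCalc hΩ).D)^[n] (X Ω 3 i + φ i)) = (jetCalc hΩ).Dt φ k g := by
    unfold JetCalc.Dt
    refine Finset.sum_congr rfl fun n _ => Finset.sum_congr rfl fun i _ => ?_
    rw [iterate_map_add, D_iter_X, add_comm 3 n]
    rfl
  rw [h2]


end

end Pool.Agent.Lib.H99JetCalc
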